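import Mathlib

namespace Pool.Agent.Results.MP_a37b83_nt.UnitRealizing

/-- A set of residues modulo `m` is zero-sum-free if no nonempty subset of it has sum zero. -/
def ZSF (m : ℕ) (S : Finset (ZMod m)) : Prop :=
  ∀ T : Finset (ZMod m), T ⊆ S → T.Nonempty → ∑ t ∈ T, t ≠ 0

/-- `k m` is the largest size of a zero-sum-free set of residues modulo `m`
(used for `m ≥ 5`, where the set of sizes is nonempty and bounded). -/
noncomputable def k (m : ℕ) : ℕ := sSup {n | ∃ S : Finset (ZMod m), ZSF m S ∧ S.card = n}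

/-- `b m = ⌊(-1+√(8m+9))/2⌋`. -/
noncomputable def b (m : ℕ) : ℕ := ⌊(-1 + Real.sqrt (8 * m + 9)) / 2⌋₊

/-- The set `E` of all `m ≥ 5` with `k(m) = b(m)`. -/
def E : Set ℕ := {m | 5 ≤ m ∧ k m = b m}

/-- Realizing sets: zero-sum-free sets modulo `m` with exactly `k(m)` elements. -/
def Realizing (m : ℕ) (S : Finset (ZMod m)) : Prop := ZSF m S ∧ S.card = k m

lemma b_le (m : ℕ) : b m * (b m + 1) ≤ 2 * m + 2 := by
  have hs : (0:ℝ) ≤ 8 * m + 9 := by positivity
  have h3 : (3:ℝ) ≤ Real.sqrt (8 * m + 9) := by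
    apply Real.le_sqrt_of_sq_le
    have : (0:ℝ) ≤ m := Nat.cast_nonneg m
    linarith
  have h1 : (b m : ℝ) ≤ (-1 + Real.sqrt (8 * m + 9)) / 2 := by
    unfold b
    apply Nat.floor_le
    linarith
  have h2 : (2 * (b m : ℝ) + 1) ≤ Real.sqrt (8 * m + 9) := by linarith
  have h4 : (2 * (b m : ℝ) + 1) ^ 2 ≤ 8 * m + 9 := by
    have h5 := Real.sq_sqrt hs
    have h6 : (0:ℝ) ≤ 2 * (b m : ℝ) + 1 := by positivity
    nlinarith
  have h7 : (b m : ℝ) * (b m + 1) ≤ 2 * m + 2 := by nlinarith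
  exact_mod_cast h7

/-- the integer set `{1,-2,3,4,…,b}` -/
noncomputable def base (n : ℕ) : Finset ℤ := insert 1 (insert (-2) (Finset.Icc 3 (n : ℤ)))

lemma base_sum_bounds (n : ℕ) (hn : 3 ≤ n) (T : Finset ℤ) (hT : T ⊆ base n) (hne : T.Nonempty) :
    -2 ≤ ∑ t ∈ T, t ∧ 2 * ∑ t ∈ T, t ≤ n * (n + 1) - 4 ∧ ∑ t ∈ T, t ≠ 0 := by
  classical
  have hmem : ∀ t ∈ T, t = 1 ∨ t = -2 ∨ (3 ≤ t ∧ t ≤ n) := by
    intro t ht
    have := hT ht
    simpa [base] using this
  -- positive part
  have key : ∀ U : Finset ℤ, (∀ t ∈ U, t = 1 ∨ (3 ≤ t ∧ t ≤ n)) →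
      0 ≤ ∑ t ∈ U, t ∧ 2 * ∑ t ∈ U, t ≤ n * (n + 1) - 4 ∧ ∑ t ∈ U, t ≠ 2 ∧
      (U.Nonempty → ∑ t ∈ U, t ≠ 0) := by
    intro U hU
    have hpos : ∀ t ∈ U, (0:ℤ) < t := by
      intro t ht
      rcases hU t ht with h | h
      · omega
      · omega
    have hsub : U ⊆ insert 1 (Finset.Icc 3 (n:ℤ)) := by
      intro t ht
      rcases hU t ht with h | h
      · simp [h]
      · simp [h]
    have hle : ∑ t ∈ U, t ≤ ∑ t ∈ insert 1 (Finset.Icc 3 (n:ℤ)), t := by
      apply Finset.sum_le_sum_of_subset_of_nonneg hsub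
      intro i hi _
      simp only [Finset.mem_insert, Finset.mem_Icc] at hi
      omega
    have hsum : ∀ m : ℕ, 3 ≤ m → 2 * ∑ t ∈ insert 1 (Finset.Icc 3 (m:ℤ)), t = m * (m + 1) - 4 := by
      intro m hm
      induction m, hm using Nat.le_induction with
      | base => decide
      | succ k hk ih =>
        have e : insert 1 (Finset.Icc 3 ((k+1:ℕ):ℤ)) =
            insert ((k:ℤ)+1) (insert 1 (Finset.Icc 3 (k:ℤ))) := by
          ext x
          simp only [Finset.mem_insert, Finset.mem_Icc]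
          push_cast
          omega
        rw [e, Finset.sum_insert, mul_add, ih]
        · push_cast
          ring
        · simp only [Finset.mem_insert, Finset.mem_Icc]
          omega
    refine ⟨Finset.sum_nonneg fun t ht => (hpos t ht).le, ?_, ?_, ?_⟩
    · have := hsum n hn
      linarith
    · by_cases h3 : ∃ t ∈ U, 3 ≤ t
      · obtain ⟨t, ht, ht3⟩ := h3
        have : t ≤ ∑ t ∈ U, t := Finset.single_le_sum (fun i hi => (hpos i hi).le) ht
        omega
      · push Not at h3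
        have : U ⊆ {1} := by
          intro t ht
          rcases hU t ht with h | h
          · simp [h]
          · exact absurd h.1 (by have := h3 t ht; omega)
        rcases Finset.subset_singleton_iff.mp this with h | h
        · simp [h]
        · simp [h]
    · intro hne'
      exact (Finset.sum_pos hpos hne').ne'
  by_cases h2 : (-2 : ℤ) ∈ T
  · have hk := key (T.erase (-2)) (by
      intro t ht
      rw [Finset.mem_erase] at ht
      rcases hmem t ht.2 with h | h | h
      · exact Or.inl h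
      · exact absurd h ht.1
      · exact Or.inr h)
    have hs := Finset.sum_erase_add T (fun t => t) h2
    obtain ⟨k1, k2, k3, k4⟩ := hk
    refine ⟨by linarith, by linarith, ?_⟩
    intro h0
    apply k3
    linarith
  · have hk := key T (by
      intro t ht
      rcases hmem t ht with h | h | h
      · exact Or.inl h
      · exact absurd (h ▸ ht) h2
      · exact Or.inr h)
    obtain ⟨k1, k2, k3, k4⟩ := hk
    exact ⟨by linarith, k2, k4 hne⟩

lemma base_card (n : ℕ) (hn : 3 ≤ n) : (base n).card = n := by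
  unfold base
  rw [Finset.card_insert_of_notMem, Finset.card_insert_of_notMem, Int.card_Icc]
  · omega
  · simp
  · simp

/-- For `m ≥ 6` the residues of `{1,-2,3,…,b(m)}` form a zero-sum-free set of `b(m)` elements
containing the unit `1`. -/
lemma exists_set (m : ℕ) (hm : 6 ≤ m) (n : ℕ) (hn : 3 ≤ n) (hb : n * (n + 1) ≤ 2 * m + 2) :
    ∃ S : Finset (ZMod m), ZSF m S ∧ S.card = n ∧ (1 : ZMod m) ∈ S := by
  classical
  have hnm : n + 3 ≤ m := by nlinarith
  have hinj : Set.InjOn (fun z : ℤ => (z : ZMod m)) (base n : Set ℤ) := by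
    intro x hx y hy hxy
    have hx' : x = 1 ∨ x = -2 ∨ (3 ≤ x ∧ x ≤ n) := by simpa [base] using hx
    have hy' : y = 1 ∨ y = -2 ∨ (3 ≤ y ∧ y ≤ n) := by simpa [base] using hy
    have hd : (m : ℤ) ∣ y - x := (ZMod.intCast_eq_intCast_iff_dvd_sub x y m).mp hxy
    obtain ⟨c, hc⟩ := hd
    have h1 : -(m:ℤ) < y - x := by omega
    have h2 : y - x < (m:ℤ) := by omega
    have hc0 : c = 0 := by
      by_contra hne
      rcases lt_or_gt_of_ne hne with h | h
      · nlinarith
      · nlinarith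
    rw [hc0] at hc
    omega
  refine ⟨(base n).image (fun z : ℤ => (z : ZMod m)), ?_, ?_, ?_⟩
  · intro T hT hne h0
    -- pull back
    obtain ⟨U, hU, hUT⟩ := Finset.subset_image_iff.mp hT
    have hinjU : Set.InjOn (fun z : ℤ => (z : ZMod m)) (U : Set ℤ) := hinj.mono hU
    rw [← hUT, Finset.sum_image hinjU] at h0
    have hUne : U.Nonempty := by
      rw [← hUT] at hne
      exact Finset.image_nonempty.mp hne
    have h0' : (((∑ t ∈ U, t : ℤ)) : ZMod m) = 0 := by
      rw [← h0]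
      push_cast
      rfl
    have hd : (m : ℤ) ∣ ∑ t ∈ U, t := (ZMod.intCast_zmod_eq_zero_iff_dvd _ m).mp h0'
    obtain ⟨b1, b2, b3⟩ := base_sum_bounds n hn U (by exact_mod_cast hU) hUne
    obtain ⟨c, hc⟩ := hd
    have hbz : (n : ℤ) * (n + 1) ≤ 2 * m + 2 := by exact_mod_cast hb
    have h1 : -(m:ℤ) < ∑ t ∈ U, t := by omega
    have h2 : ∑ t ∈ U, t < (m:ℤ) := by linarith
    have hc0 : c = 0 := by
      by_contra hne
      rcases lt_or_gt_of_ne hne with h | h
      · nlinarith
      · nlinarith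
    rw [hc0, mul_zero] at hc
    exact b3 hc
  · rw [Finset.card_image_of_injOn hinj, base_card n hn]
  · apply Finset.mem_image.mpr
    exact ⟨1, by simp [base], by simp⟩

lemma b_five : b 5 = 3 := by
  unfold b
  have : Real.sqrt (8 * (5:ℕ) + 9) = 7 := by
    rw [show (8 * ((5:ℕ):ℝ) + 9) = 7 ^ 2 by norm_num]
    exact Real.sqrt_sq (by norm_num)
  rw [this]
  norm_num

lemma k_five : k 5 ≤ 2 := by
  unfold k
  apply csSup_le'
  rintro n ⟨S, hS, rfl⟩
  have key : ∀ S : Finset (ZMod 5), (∀ T : Finset (ZMod 5), T ⊆ S → T.Nonempty → ∑ t ∈ T, t ≠ 0) →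
      S.card ≤ 2 := by decide
  exact key S hS

lemma three_le_b (m : ℕ) (hm : 5 ≤ m) : 3 ≤ b m := by
  unfold b
  apply Nat.le_floor
  have h7 : (7:ℝ) ≤ Real.sqrt (8 * m + 9) := by
    apply Real.le_sqrt_of_sq_le
    have : (5:ℝ) ≤ m := by exact_mod_cast hm
    linarith
  push_cast
  linarith

/-- **Question 2 is answered in the negative**: for every `m ∈ E` some realizing set for `m`
contains an element coprime to `m` (indeed the residue `1`). -/
theorem result :
    (¬ ∃ m ∈ E, ∀ S : Finset (ZMod m), Realizing m S → ∀ a ∈ S, ¬ IsUnit a) ∧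
    ∀ m ∈ E, ∃ S : Finset (ZMod m), Realizing m S ∧ (1 : ZMod m) ∈ S := by
  have main : ∀ m ∈ E, ∃ S : Finset (ZMod m), Realizing m S ∧ (1 : ZMod m) ∈ S := by
    rintro m ⟨hm5, hk⟩
    have hm6 : 6 ≤ m := by
      rcases Nat.lt_or_ge m 6 with h | h
      · have h5 : m = 5 := by omega
        subst h5
        rw [b_five] at hk
        have := k_five
        omega
      · exact h
    obtain ⟨S, h1, h2, h3⟩ := exists_set m hm6 (b m) (three_le_b m hm5) (b_le m)
    exact ⟨S, ⟨h1, by rw [h2, hk]⟩, h3⟩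
  refine ⟨?_, main⟩
  rintro ⟨m, hm, h⟩
  obtain ⟨S, hS, h1⟩ := main m hm
  exact h S hS 1 h1 isUnit_one

end Pool.Agent.Results.MP_a37b83_nt.UnitRealizing
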